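import Mathlib

/-!
# MP_50fe75_gt: every Scott completion of a T0 space is a D-completion
-/

open Set

namespace Pool.Agent.Results.MP_50fe75_gt.ScottCompletionIsDCompletion

universe u

/-- The specialization order: `x` lies in the closure of `y`. -/
def sle {α : Type u} [TopologicalSpace α] (x y : α) : Prop := x ∈ closure ({y} : Set α)

/-- `E` is a directed set (nonempty) for the order relation `r`. -/
def IsDir {α : Type u} (r : α → α → Prop) (E : Set α) : Prop :=
  E.Nonempty ∧ ∀ a ∈ E, ∀ b ∈ E, ∃ c ∈ E, r a c ∧ r b c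

/-- `s` is a supremum of `E` for the order relation `r`. -/
def IsSup {α : Type u} (r : α → α → Prop) (E : Set α) (s : α) : Prop :=
  (∀ e ∈ E, r e s) ∧ ∀ t, (∀ e ∈ E, r e t) → r s t

/-- `U` is Scott open: an upper set such that every directed set whose supremum exists and lies
in `U` meets `U`. -/
def ScottOpen {α : Type u} (r : α → α → Prop) (U : Set α) : Prop :=
  (∀ x ∈ U, ∀ y, r x y → y ∈ U) ∧
    ∀ E s, IsDir r E → IsSup r E s → s ∈ U → ∃ e ∈ E, e ∈ U

/-- A Scott space: T0, the specialization order is a dcpo, and the topology is the Scott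
topology of that order. -/
structure IsScottSpace (α : Type u) [TopologicalSpace α] : Prop where
  t0 : T0Space α
  dcpo : ∀ E : Set α, IsDir sle E → ∃ s, IsSup sle E s
  scott : ∀ U : Set α, IsOpen U ↔ ScottOpen sle U

/-- A monotone convergence space: T0, the specialization order is a dcpo, and every open set is
Scott open. -/
structure IsMonotoneConvergence (α : Type u) [TopologicalSpace α] : Prop where
  t0 : T0Space α
  dcpo : ∀ E : Set α, IsDir sle E → ∃ s, IsSup sle E s
  scott : ∀ U : Set α, IsOpen U → ScottOpen sle U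

/-- `A` is d-closed: it contains the suprema (existing in the whole poset) of its directed
subsets. -/
def DClosed {α : Type u} (r : α → α → Prop) (A : Set α) : Prop :=
  ∀ E ⊆ A, IsDir r E → ∀ s, IsSup r E s → s ∈ A

/-- `A` is d-dense: every d-closed set containing `A` is everything. -/
def DDense {α : Type u} (r : α → α → Prop) (A : Set α) : Prop :=
  ∀ B, A ⊆ B → DClosed r B → B = univ

/-- `j` is a D-completion of `X`. -/
def IsDCompletion {X Y : Type u} [TopologicalSpace X] [TopologicalSpace Y] (j : X → Y) : Prop :=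
  IsMonotoneConvergence Y ∧ Topology.IsEmbedding j ∧ DDense sle (range j)

/-- `i` is a Scott completion of `X`. -/
def IsScottCompletion {X Y : Type u} [TopologicalSpace X] [TopologicalSpace Y] (i : X → Y) :
    Prop :=
  IsScottSpace Y ∧ Continuous i ∧ ∀ (Z : Type u) [TopologicalSpace Z], IsScottSpace Z →
    ∀ g : X → Z, Continuous g → ∃! h : Y → Z, Continuous h ∧ h ∘ i = g

/-! ### Basic facts -/

lemma sle_iff_open {α : Type u} [TopologicalSpace α] {x y : α} :
    sle x y ↔ ∀ U : Set α, IsOpen U → x ∈ U → y ∈ U := by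
  unfold sle
  rw [mem_closure_iff]
  constructor
  · intro h U hU hx
    obtain ⟨z, hz1, hz2⟩ := h U hU hx
    rw [mem_singleton_iff] at hz2
    rwa [← hz2]
  · intro h _ hU hx
    exact ⟨y, h _ hU hx, rfl⟩

lemma sle_refl {α : Type u} [TopologicalSpace α] (x : α) : sle x x :=
  sle_iff_open.2 fun _ _ h => h

lemma sle_antisymm {α : Type u} [TopologicalSpace α] [T0Space α] {x y : α} (h1 : sle x y)
    (h2 : sle y x) : x = y := by
  apply Inseparable.eq
  rw [inseparable_iff_forall_isOpen]
  intro U hU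
  exact ⟨sle_iff_open.1 h1 U hU, sle_iff_open.1 h2 U hU⟩

lemma sle_map {α β : Type u} [TopologicalSpace α] [TopologicalSpace β] {f : α → β}
    (hf : Continuous f) {x y : α} (h : sle x y) : sle (f x) (f y) :=
  sle_iff_open.2 fun _ hU hx => sle_iff_open.1 h _ (hU.preimage hf) hx

lemma IsSup.unique {α : Type u} {r : α → α → Prop} (hanti : ∀ x y, r x y → r y x → x = y)
    {E : Set α} {s t : α} (hs : IsSup r E s) (ht : IsSup r E t) : s = t :=
  hanti _ _ (hs.2 t ht.1) (ht.2 s hs.1)

/-- The Scott topology of a relation. -/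
@[reducible] def scottTop {α : Type u} (r : α → α → Prop) : TopologicalSpace α where
  IsOpen U := ScottOpen r U
  isOpen_univ := ⟨fun _ _ _ _ => trivial, fun E _ hE _ _ => by
    obtain ⟨e, he⟩ := hE.1
    exact ⟨e, he, trivial⟩⟩
  isOpen_inter := by
    rintro U V hU hV
    refine ⟨fun x hx y hxy => ⟨hU.1 x hx.1 y hxy, hV.1 x hx.2 y hxy⟩, ?_⟩
    intro E s hE hs hsU
    obtain ⟨a, ha, haU⟩ := hU.2 E s hE hs hsU.1
    obtain ⟨b, hb, hbV⟩ := hV.2 E s hE hs hsU.2
    obtain ⟨c, hc, hac, hbc⟩ := hE.2 a ha b hb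
    exact ⟨c, hc, hU.1 a haU c hac, hV.1 b hbV c hbc⟩
  isOpen_sUnion := by
    rintro S hS
    refine ⟨?_, ?_⟩
    · rintro x ⟨U, hU, hx⟩ y hxy
      exact ⟨U, hU, (hS U hU).1 x hx y hxy⟩
    · rintro E s hE hs ⟨U, hU, hsU⟩
      obtain ⟨e, he, heU⟩ := (hS U hU).2 E s hE hs hsU
      exact ⟨e, he, U, hU, heU⟩

lemma sle_scottTop {α : Type u} {r : α → α → Prop} (hrefl : ∀ x, r x x)
    (htrans : ∀ x y z, r x y → r y z → r x z) (x y : α) :
    @sle α (scottTop r) x y ↔ r x y := by
  let _ := scottTop r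
  rw [sle_iff_open]
  constructor
  · intro h
    by_contra hxy
    have hO : IsOpen {z : α | ¬ r z y} := by
      refine (⟨?_, ?_⟩ : ScottOpen r {z : α | ¬ r z y})
      · intro a ha b hab hb
        exact ha (htrans _ _ _ hab hb)
      · intro E s hE hs hsU
        by_contra hcon
        push Not at hcon
        apply hsU
        apply hs.2
        intro e he
        by_contra h'
        exact hcon e he h'
    exact h _ hO hxy (hrefl y)
  · intro hxy U hU hx
    exact (show ScottOpen r U from hU).1 x hx y hxy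

lemma isScottSpace_scottTop {α : Type u} {r : α → α → Prop} (hrefl : ∀ x, r x x)
    (htrans : ∀ x y z, r x y → r y z → r x z) (hanti : ∀ x y, r x y → r y x → x = y)
    (hdcpo : ∀ E : Set α, IsDir r E → ∃ s, IsSup r E s) :
    @IsScottSpace α (scottTop r) := by
  let _ := scottTop r
  have hsle : (sle : α → α → Prop) = r := by
    funext x y
    exact propext (sle_scottTop hrefl htrans x y)
  refine ⟨?_, ?_, ?_⟩
  · refine ⟨fun x y hxy => ?_⟩
    rw [inseparable_iff_forall_isOpen] at hxy
    have h1 : sle x y := sle_iff_open.2 fun U hU hx => (hxy U hU).1 hx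
    have h2 : sle y x := sle_iff_open.2 fun U hU hx => (hxy U hU).2 hx
    rw [hsle] at h1 h2
    exact hanti _ _ h1 h2
  · rw [hsle]
    exact hdcpo
  · rw [hsle]
    intro U
    exact Iff.rfl

/-! ### The Sierpinski space -/

/-- The order of the Sierpinski space. -/
def sier (a b : ULift.{u} Prop) : Prop := a.down → b.down

lemma isScott_sier : @IsScottSpace (ULift.{u} Prop) (scottTop sier) := by
  refine isScottSpace_scottTop (fun x h => h) (fun x y z h1 h2 h => h2 (h1 h)) ?_ ?_
  · intro x y h1 h2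
    apply ULift.ext
    exact propext ⟨h1, h2⟩
  · intro E _
    refine ⟨⟨∃ e ∈ E, e.down⟩, fun e he h => ⟨e, he, h⟩, ?_⟩
    rintro t ht ⟨e, he, h⟩
    exact ht e he h

lemma continuous_char {X : Type u} [TopologicalSpace X] {O : Set X} (hO : IsOpen O) :
    @Continuous X (ULift.{u} Prop) _ (scottTop sier) (fun x => ⟨x ∈ O⟩) := by
  let _ := scottTop sier.{u}
  refine ⟨fun V hV => ?_⟩
  have hV' : ScottOpen sier V := hV
  by_cases h0 : (⟨False⟩ : ULift.{u} Prop) ∈ V
  · have : (fun x : X => (⟨x ∈ O⟩ : ULift.{u} Prop)) ⁻¹' V = univ := by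
      ext x
      simp only [mem_preimage, mem_univ, iff_true]
      exact hV'.1 _ h0 _ (fun h => h.elim)
    rw [this]
    exact isOpen_univ
  · by_cases h1 : (⟨True⟩ : ULift.{u} Prop) ∈ V
    · have : (fun x : X => (⟨x ∈ O⟩ : ULift.{u} Prop)) ⁻¹' V = O := by
        ext x
        simp only [mem_preimage]
        constructor
        · intro h
          by_contra hx
          apply h0
          have : (⟨x ∈ O⟩ : ULift.{u} Prop) = ⟨False⟩ := by
            apply ULift.ext
            exact propext ⟨fun h => hx h, fun h => h.elim⟩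
          rwa [this] at h
        · intro h
          have : (⟨x ∈ O⟩ : ULift.{u} Prop) = ⟨True⟩ := by
            apply ULift.ext
            exact propext ⟨fun _ => trivial, fun _ => h⟩
          rwa [this]
      rw [this]
      exact hO
    · have : (fun x : X => (⟨x ∈ O⟩ : ULift.{u} Prop)) ⁻¹' V = ∅ := by
        ext x
        simp only [mem_preimage, mem_empty_iff_false, iff_false]
        intro h
        exact h1 (hV'.1 _ h _ (fun _ => trivial))
      rw [this]
      exact isOpen_empty

lemma isOpen_true : @IsOpen (ULift.{u} Prop) (scottTop sier) {z | z.down} := by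
  show ScottOpen sier {z : ULift.{u} Prop | z.down}
  refine ⟨fun x hx y hxy => hxy hx, ?_⟩
  intro E s hE hs hsU
  by_contra hcon
  push Not at hcon
  have := hs.2 ⟨False⟩ (fun e he h => hcon e he h)
  exact this hsU

section

variable {X Y : Type u} [TopologicalSpace X] [TopologicalSpace Y] {i : X → Y}

lemma exists_open (hi : IsScottCompletion i) {O : Set X} (hO : IsOpen O) :
    ∃ U : Set Y, IsOpen U ∧ i ⁻¹' U = O := by
  let _ := scottTop sier.{u}
  obtain ⟨h, ⟨hc, hh⟩, -⟩ := hi.2.2 (ULift.{u} Prop) isScott_sier _ (continuous_char hO)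
  refine ⟨h ⁻¹' {z | z.down}, isOpen_true.preimage hc, ?_⟩
  ext x
  have := congrFun hh x
  simp only [Function.comp_apply] at this
  simp only [mem_preimage, mem_ofPred_eq, this]

lemma open_unique (hi : IsScottCompletion i) {U V : Set Y} (hU : IsOpen U) (hV : IsOpen V)
    (h : i ⁻¹' U = i ⁻¹' V) : U = V := by
  let _ := scottTop sier.{u}
  have hcont : Continuous (fun x : X => (⟨i x ∈ U⟩ : ULift.{u} Prop)) :=
    (continuous_char hU).comp hi.2.1
  obtain ⟨f, -, huniq⟩ := hi.2.2 (ULift.{u} Prop) isScott_sier _ hcont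
  have h1 := huniq (fun y : Y => (⟨y ∈ U⟩ : ULift.{u} Prop)) ⟨continuous_char hU, rfl⟩
  have h2 := huniq (fun y : Y => (⟨y ∈ V⟩ : ULift.{u} Prop)) ⟨continuous_char hV, by
    funext x
    apply ULift.ext
    have := Set.ext_iff.1 h x
    exact propext this.symm⟩
  ext y
  have h3 := congrFun (h1.trans h2.symm) y
  have h4 := congrArg ULift.down h3
  simp only at h4
  rw [h4]

/-- Every neighbourhood of a point of the completion contains points of `X` below it. -/
lemma b_dense (hi : IsScottCompletion i) {p : Y} {U : Set Y} (hU : IsOpen U) (hp : p ∈ U) :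
    ∃ a : X, i a ∈ U ∧ sle (i a) p := by
  by_contra hcon
  push Not at hcon
  have hV : IsOpen (U ∩ (closure {p})ᶜ) := hU.inter isClosed_closure.isOpen_compl
  have := open_unique hi hU hV (by
    ext a
    simp only [mem_preimage, mem_inter_iff, mem_compl_iff]
    constructor
    · intro h
      exact ⟨h, hcon a h⟩
    · exact fun h => h.1)
  rw [this] at hp
  exact hp.2 (subset_closure rfl)

end

/-! ### The test space -/

/-- The open sets containing `e`. -/
def Nb {Y : Type u} [TopologicalSpace Y] (e : Y) : Set (Set Y) := {U | IsOpen U ∧ e ∈ U}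

lemma Nb_subset {Y : Type u} [TopologicalSpace Y] {a b : Y} : Nb a ⊆ Nb b ↔ sle a b := by
  rw [sle_iff_open]
  constructor
  · intro h U hU ha
    exact (h ⟨hU, ha⟩).2
  · rintro h U ⟨hU, ha⟩
    exact ⟨hU, h U hU ha⟩

/-- The points of the test space: pairs of a point `e` of `B` and a set of open sets
containing `e`. -/
structure Zt {Y : Type u} [TopologicalSpace Y] (B : Set Y) : Type u where
  x : Set (Set Y)
  e : Y
  he : e ∈ B
  hx : x ⊆ Nb e

/-- The order of the test space. -/
def zle {Y : Type u} [TopologicalSpace Y] {B : Set Y} (a b : Zt B) : Prop :=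
  (a.e = b.e ∧ a.x ⊆ b.x) ∨ (b.x = Nb b.e ∧ a.x ⊆ Nb b.e)

section

variable {Y : Type u} [TopologicalSpace Y] {B : Set Y}

lemma Zt.ext' {a b : Zt B} (h1 : a.x = b.x) (h2 : a.e = b.e) : a = b := by
  cases a; cases b
  simp only at h1 h2
  subst h1 h2
  rfl

lemma zle_refl (a : Zt B) : zle a a := Or.inl ⟨rfl, subset_rfl⟩

lemma zle_trans (a b c : Zt B) (h1 : zle a b) (h2 : zle b c) : zle a c := by
  rcases h1 with ⟨h1, h1'⟩ | ⟨h1, h1'⟩ <;> rcases h2 with ⟨h2, h2'⟩ | ⟨h2, h2'⟩
  · exact Or.inl ⟨h1.trans h2, h1'.trans h2'⟩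
  · exact Or.inr ⟨h2, h1'.trans h2'⟩
  · right
    rw [h1, h2] at h2'
    have : c.x = Nb c.e := subset_antisymm c.hx h2'
    exact ⟨this, by rw [← h2]; exact h1'⟩
  · right
    rw [h1] at h2'
    exact ⟨h2, h1'.trans h2'⟩

lemma zle_antisymm [T0Space Y] (a b : Zt B) (h1 : zle a b) (h2 : zle b a) : a = b := by
  rcases h1 with ⟨h1, h1'⟩ | ⟨h1, h1'⟩ <;> rcases h2 with ⟨h2, h2'⟩ | ⟨h2, h2'⟩
  · exact Zt.ext' (subset_antisymm h1' h2') h1
  · refine Zt.ext' (subset_antisymm h1' ?_) h1
    rw [h2]
    exact h2'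
  · refine Zt.ext' (subset_antisymm ?_ h2') h2.symm
    rw [h1]
    exact h1'
  · rw [h2] at h1'
    rw [h1] at h2'
    have he : a.e = b.e := sle_antisymm (Nb_subset.1 h1') (Nb_subset.1 h2')
    exact Zt.ext' (by rw [h1, h2, he]) he

/-- The copy of a point of `B`. -/
def gpt (e : Y) (he : e ∈ B) : Zt B := ⟨Nb e, e, he, subset_rfl⟩

/-- Above a full point there are only full points. -/
lemma full_of_zle {a b : Zt B} (h : zle a b) (ha : a.x = Nb a.e) :
    b.x = Nb b.e ∧ Nb a.e ⊆ Nb b.e := by
  rcases h with ⟨h, h'⟩ | ⟨h, h'⟩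
  · rw [ha, h] at h'
    exact ⟨subset_antisymm b.hx h', by rw [h]⟩
  · rw [ha] at h'
    exact ⟨h, h'⟩

/-- Suprema of directed sets in the test space. -/
lemma zt_sup (hY : IsScottSpace Y) (hB : DClosed sle B) (E : Set (Zt B)) (hE : IsDir zle E) :
    ∃ s, IsSup zle E s ∧ ∀ U ∈ s.x, ∃ a ∈ E, U ∈ a.x := by
  by_cases hfull : ∃ d ∈ E, d.x = Nb d.e
  · obtain ⟨d, hd, hdf⟩ := hfull
    have hcof : ∀ a ∈ E, ∃ c ∈ E, c.x = Nb c.e ∧ zle a c := by
      intro a ha
      obtain ⟨c, hc, hac, hdc⟩ := hE.2 a ha d hd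
      exact ⟨c, hc, (full_of_zle hdc hdf).1, hac⟩
    let F : Set Y := {y | ∃ a ∈ E, a.x = Nb a.e ∧ a.e = y}
    have hFdir : IsDir sle F := by
      refine ⟨⟨d.e, d, hd, hdf, rfl⟩, ?_⟩
      rintro _ ⟨a, ha, haf, rfl⟩ _ ⟨b, hb, hbf, rfl⟩
      obtain ⟨c, hc, hac, hbc⟩ := hE.2 a ha b hb
      obtain ⟨hcf, hac'⟩ := full_of_zle hac haf
      obtain ⟨-, hbc'⟩ := full_of_zle hbc hbf
      exact ⟨c.e, ⟨c, hc, hcf, rfl⟩, Nb_subset.1 hac', Nb_subset.1 hbc'⟩
    obtain ⟨s, hs⟩ := hY.dcpo F hFdir
    have hsB : s ∈ B := hB F (by rintro _ ⟨a, -, -, rfl⟩; exact a.he) hFdir s hs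
    refine ⟨gpt s hsB, ⟨?_, ?_⟩, ?_⟩
    · intro a ha
      obtain ⟨c, hc, hcf, hac⟩ := hcof a ha
      refine zle_trans _ _ _ hac (Or.inr ⟨rfl, ?_⟩)
      rw [hcf]
      exact Nb_subset.2 (hs.1 c.e ⟨c, hc, hcf, rfl⟩)
    · intro t ht
      have htf := (full_of_zle (ht d hd) hdf).1
      refine Or.inr ⟨htf, Nb_subset.2 (hs.2 t.e ?_)⟩
      rintro _ ⟨a, ha, haf, rfl⟩
      exact Nb_subset.1 (full_of_zle (ht a ha) haf).2
    · rintro U ⟨hU, hsU⟩
      obtain ⟨f, ⟨a, ha, haf, rfl⟩, hfU⟩ := ((hY.scott U).1 hU).2 F s hFdir hs hsU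
      refine ⟨a, ha, ?_⟩
      rw [haf]
      exact ⟨hU, hfU⟩
  · push Not at hfull
    obtain ⟨a0, ha0⟩ := hE.1
    have hsame : ∀ a ∈ E, a.e = a0.e := by
      intro a ha
      obtain ⟨c, hc, hac, h0c⟩ := hE.2 a ha a0 ha0
      have h1 : a.e = c.e := by
        rcases hac with h | h
        · exact h.1
        · exact absurd h.1 (hfull c hc)
      have h2 : a0.e = c.e := by
        rcases h0c with h | h
        · exact h.1
        · exact absurd h.1 (hfull c hc)
      rw [h1, h2]
    let s : Zt B := ⟨{U | ∃ a ∈ E, U ∈ a.x}, a0.e, a0.he, by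
      rintro U ⟨a, ha, hU⟩
      rw [← hsame a ha]
      exact a.hx hU⟩
    refine ⟨s, ⟨?_, ?_⟩, ?_⟩
    · intro a ha
      exact Or.inl ⟨hsame a ha, fun U hU => ⟨a, ha, hU⟩⟩
    · intro t ht
      by_cases htf : t.x = Nb t.e
      · refine Or.inr ⟨htf, ?_⟩
        rintro U ⟨a, ha, hU⟩
        rcases ht a ha with h | h
        · rw [← htf]
          exact h.2 hU
        · exact h.2 hU
      · left
        constructor
        · rcases ht a0 ha0 with h | h
          · exact h.1
          · exact absurd h.1 htf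
        · rintro U ⟨a, ha, hU⟩
          rcases ht a ha with h | h
          · exact h.2 hU
          · exact absurd h.1 htf
    · rintro U ⟨a, ha, hU⟩
      exact ⟨a, ha, hU⟩

lemma isScott_zt (hY : IsScottSpace Y) (hB : DClosed sle B) :
    @IsScottSpace (Zt B) (scottTop zle) := by
  have := hY.t0
  refine isScottSpace_scottTop zle_refl zle_trans zle_antisymm ?_
  intro E hE
  obtain ⟨s, hs, -⟩ := zt_sup hY hB E hE
  exact ⟨s, hs⟩

/-- The sets `{z | U ∈ z.x}` are Scott open. -/
lemma isOpen_member (hY : IsScottSpace Y) (hB : DClosed sle B) {U : Set Y} :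
    @IsOpen (Zt B) (scottTop zle) {z | U ∈ z.x} := by
  have := hY.t0
  show ScottOpen zle {z : Zt B | U ∈ z.x}
  refine ⟨?_, ?_⟩
  · intro a ha b hab
    have ha' : U ∈ a.x := ha
    show U ∈ b.x
    rcases hab with ⟨h, h'⟩ | ⟨h, h'⟩
    · exact h' ha'
    · rw [h]
      exact h' ha'
  · intro E s hE hs hsU
    obtain ⟨s', hs', hmem⟩ := zt_sup hY hB E hE
    have : s = s' := hs.unique zle_antisymm hs'
    subst this
    exact hmem U hsU

/-- A Scott open set containing the copy of `e` contains a pair with a finite first entry. -/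
lemma exists_finite {V : Set (Zt B)} (hV : ScottOpen zle V) {e : Y} (he : e ∈ B)
    (h : gpt e he ∈ V) : ∃ (F : Set (Set Y)) (_ : F.Finite) (hF : F ⊆ Nb e),
      (⟨F, e, he, hF⟩ : Zt B) ∈ V := by
  let E : Set (Zt B) := {z | z.e = e ∧ z.x.Finite}
  have hdir : IsDir zle E := by
    refine ⟨⟨⟨∅, e, he, empty_subset _⟩, rfl, finite_empty⟩, ?_⟩
    rintro a ⟨ha1, ha2⟩ b ⟨hb1, hb2⟩
    refine ⟨⟨a.x ∪ b.x, e, he, union_subset (by rw [← ha1]; exact a.hx)
      (by rw [← hb1]; exact b.hx)⟩, ⟨rfl, ha2.union hb2⟩, Or.inl ⟨ha1, subset_union_left⟩,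
      Or.inl ⟨hb1, subset_union_right⟩⟩
  have hsup : IsSup zle E (gpt e he) := by
    refine ⟨?_, ?_⟩
    · rintro a ⟨ha1, -⟩
      refine Or.inl ⟨ha1, ?_⟩
      have := a.hx
      rw [ha1] at this
      exact this
    · intro t ht
      have hsingle : ∀ (U : Set Y) (hU : U ∈ Nb e),
          zle (⟨{U}, e, he, singleton_subset_iff.2 hU⟩ : Zt B) t := by
        intro U hU
        exact ht _ ⟨rfl, finite_singleton U⟩
      by_cases htf : t.x = Nb t.e
      · refine Or.inr ⟨htf, ?_⟩
        intro U hU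
        rcases hsingle U hU with h | h
        · rw [← htf]
          exact h.2 rfl
        · exact h.2 rfl
      · left
        constructor
        · rcases ht (⟨∅, e, he, empty_subset _⟩ : Zt B) ⟨rfl, finite_empty⟩ with h | h
          · exact h.1
          · exact absurd h.1 htf
        · intro U hU
          rcases hsingle U hU with h | h
          · exact h.2 rfl
          · exact absurd h.1 htf
  obtain ⟨z, ⟨hz1, hz2⟩, hzV⟩ := hV.2 E _ hdir hsup h
  obtain ⟨zx, ze, zhe, zhx⟩ := z
  simp only at hz1 hz2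
  subst hz1
  exact ⟨zx, hz2, zhx, hzV⟩

end

/-- Main theorem: every Scott completion of a T0 space is a D-completion. -/
theorem result (X Y : Type u) [TopologicalSpace X] [TopologicalSpace Y] [T0Space X] (i : X → Y)
    (hi : IsScottCompletion i) : IsDCompletion i := by
  have hY := hi.1
  have := hY.t0
  refine ⟨⟨hY.t0, hY.dcpo, fun U hU => (hY.scott U).1 hU⟩, ?_, ?_⟩
  · have hind : Topology.IsInducing i := by
      rw [Topology.isInducing_iff]
      apply le_antisymm
      · exact continuous_iff_le_induced.1 hi.2.1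
      · intro O hO
        obtain ⟨U, hU, hUO⟩ := exists_open hi hO
        exact ⟨U, hU, hUO⟩
    exact hind.isEmbedding
  · intro B hiB hB
    rw [eq_univ_iff_forall]
    intro p
    let _ : TopologicalSpace (Zt B) := scottTop zle
    have hmem : ∀ a : X, i a ∈ B := fun a => hiB ⟨a, rfl⟩
    let g : X → Zt B := fun a => gpt (i a) (hmem a)
    have hg : Continuous g := by
      refine ⟨fun V hV => ?_⟩
      rw [isOpen_iff_forall_mem_open]
      intro a ha
      obtain ⟨F, hFfin, hF, hFV⟩ := exists_finite (show ScottOpen zle V from hV) (hmem a) ha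
      refine ⟨i ⁻¹' (⋂₀ F), ?_, ?_, ?_⟩
      · intro a' ha'
        refine (show ScottOpen zle V from hV).1 _ hFV _ (Or.inr ⟨rfl, ?_⟩)
        intro U hU
        exact ⟨(hF hU).1, ha' U hU⟩
      · exact (hFfin.isOpen_sInter (fun U hU => (hF hU).1)).preimage hi.2.1
      · intro U hU
        exact (hF hU).2
    obtain ⟨h, ⟨hc, hh⟩, -⟩ := hi.2.2 (Zt B) (isScott_zt hY hB) g hg
    have hle : ∀ a : X, sle (i a) p → zle (g a) (h p) := by
      intro a ha
      have h1 := sle_map hc ha
      have h2 : h (i a) = g a := congrFun hh a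
      rw [h2] at h1
      exact (sle_scottTop zle_refl zle_trans _ _).1 h1
    obtain ⟨a0, -, ha0⟩ := b_dense hi isOpen_univ (mem_univ p)
    have hfull : (h p).x = Nb (h p).e := (full_of_zle (hle a0 ha0) rfl).1
    have hpd : p = (h p).e := by
      apply Inseparable.eq
      rw [inseparable_iff_forall_isOpen]
      intro U hU
      constructor
      · intro hpU
        obtain ⟨a, haU, hap⟩ := b_dense hi hU hpU
        have h1 : Nb (i a) ⊆ Nb (h p).e := (full_of_zle (hle a hap) rfl).2
        exact (h1 ⟨hU, haU⟩).2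
      · intro hdU
        have hopen : IsOpen {z : Zt B | U ∈ z.x} := isOpen_member hY hB
        have hpV : p ∈ h ⁻¹' {z : Zt B | U ∈ z.x} := by
          show U ∈ (h p).x
          rw [hfull]
          exact ⟨hU, hdU⟩
        obtain ⟨a, haV, hap⟩ := b_dense hi (hopen.preimage hc) hpV
        have h2 : h (i a) = g a := congrFun hh a
        have haV' : U ∈ (h (i a)).x := haV
        rw [h2] at haV'
        have haU : i a ∈ U := haV'.2
        exact sle_iff_open.1 hap U hU haU
    rw [hpd]
    exact (h p).he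

end Pool.Agent.Results.MP_50fe75_gt.ScottCompletionIsDCompletion
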